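import Pool.Agent.Lib.MP_479d4c_gt.H95.NearCircle

set_option autoImplicit false

namespace Pool.Agent.Lib.MP_479d4c_gt.H95

open Complex Metric Set

/-- The linear map `x + i y ↦ x / (1 + b) + i y / (1 - b)`. -/
noncomputable def El (b : ℝ) (z : ℂ) : ℂ := ⟨z.re / (1 + b), z.im / (1 - b)⟩

lemma El_norm {b : ℝ} (hb0 : 0 ≤ b) (hb1 : b < 1) (z : ℂ) : ‖El b z‖ ≤ ‖z‖ / (1 - b) := by
  have h1 : 0 < 1 - b := by linarith
  have h2 : 0 < 1 + b := by linarith
  rw [le_div_iff₀ h1]
  have h3 : (‖El b z‖ * (1 - b)) ^ 2 ≤ ‖z‖ ^ 2 := by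
    rw [mul_pow, ← Complex.normSq_eq_norm_sq, ← Complex.normSq_eq_norm_sq, Complex.normSq_apply,
      Complex.normSq_apply]
    unfold El
    have e1 : (z.re / (1 + b) * (z.re / (1 + b)) + z.im / (1 - b) * (z.im / (1 - b))) *
        (1 - b) ^ 2 = z.re * z.re * ((1 - b) / (1 + b)) ^ 2 + z.im * z.im := by
      field_simp
    rw [e1]
    have h4 : ((1 - b) / (1 + b)) ^ 2 ≤ 1 := by
      apply pow_le_one₀ (by positivity)
      rw [div_le_one h2]; linarith
    nlinarith [mul_self_nonneg z.re]
  exact (abs_le_of_sq_le_sq h3 (norm_nonneg _)) |> le_trans (le_abs_self _)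

lemma El_sub (b : ℝ) (z w : ℂ) : El b (z - w) = El b z - El b w := by
  apply Complex.ext
  · simp [El, sub_div]
  · simp [El, sub_div]

lemma El_deriv (b : ℝ) {g : ℝ → ℂ} {g' : ℂ} {t : ℝ} (h : HasDerivAt g g' t) :
    HasDerivAt (fun s => El b (g s)) (El b g') t := by
  have h1 : HasDerivAt (fun s => (g s).re) g'.re t :=
    Complex.reCLM.hasFDerivAt.comp_hasDerivAt t h
  have h2 : HasDerivAt (fun s => (g s).im) g'.im t :=
    Complex.imCLM.hasFDerivAt.comp_hasDerivAt t h
  have h3 := (h1.div_const (1 + b)).ofReal_comp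
  have h4 := (h2.div_const (1 - b)).ofReal_comp
  have h5 := h3.add (h4.mul_const I)
  have e1 : (fun s => El b (g s)) =
      (fun s => (((g s).re / (1 + b) : ℝ) : ℂ) + (((g s).im / (1 - b) : ℝ) : ℂ) * I) := by
    funext s
    apply Complex.ext
    · simp [El, -ofReal_div, -ofReal_add, -ofReal_sub]
    · simp [El, -ofReal_div, -ofReal_add, -ofReal_sub]
  have e2 : El b g' = ((g'.re / (1 + b) : ℝ) : ℂ) + ((g'.im / (1 - b) : ℝ) : ℂ) * I := by
    apply Complex.ext
    · simp [El, -ofReal_div, -ofReal_add, -ofReal_sub]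
    · simp [El, -ofReal_div, -ofReal_add, -ofReal_sub]
  rw [e1, e2]
  exact h5

/-- The model ellipse. -/
noncomputable def elp (b t : ℝ) : ℂ := exp (t * I) + b * exp (-(t * I))

/-- Its derivative. -/
noncomputable def elp1 (b t : ℝ) : ℂ := I * (exp (t * I) - b * exp (-(t * I)))

lemma exp_neg_I (t : ℝ) : exp (-(t * I)) = ⟨Real.cos t, - Real.sin t⟩ := by
  have : -((t : ℂ) * I) = ((-t : ℝ) : ℂ) * I := by push_cast; ring
  rw [this]
  apply Complex.ext
  · rw [exp_ofReal_mul_I_re, Real.cos_neg]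
  · rw [exp_ofReal_mul_I_im, Real.sin_neg]

lemma El_elp {b : ℝ} (hb0 : 0 ≤ b) (hb1 : b < 1) (t : ℝ) : El b (elp b t) = exp (t * I) := by
  have h1 : 1 - b ≠ 0 := by linarith
  have h2 : 1 + b ≠ 0 := by linarith
  unfold El elp
  rw [exp_neg_I]
  apply Complex.ext
  · simp only [add_re, exp_ofReal_mul_I_re, re_ofReal_mul]
    field_simp
  · simp only [add_im, exp_ofReal_mul_I_im, im_ofReal_mul]
    field_simp
    ring

lemma El_elp1 {b : ℝ} (hb0 : 0 ≤ b) (hb1 : b < 1) (t : ℝ) :
    El b (elp1 b t) = I * exp (t * I) := by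
  have h1 : 1 - b ≠ 0 := by linarith
  have h2 : 1 + b ≠ 0 := by linarith
  unfold El elp1
  rw [exp_neg_I]
  apply Complex.ext
  · simp only [mul_re, I_re, I_im, sub_re, sub_im, exp_ofReal_mul_I_re, exp_ofReal_mul_I_im,
      re_ofReal_mul, im_ofReal_mul]
    field_simp
    ring
  · simp only [mul_im, I_re, I_im, sub_re, sub_im, exp_ofReal_mul_I_re, exp_ofReal_mul_I_im,
      re_ofReal_mul, im_ofReal_mul]
    field_simp
    ring

/-- **A curve that is `C²`-close to the ellipse `e^{it} + b e^{-it}` is injective modulo `2π` and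
its multiple by `ε` is the boundary of a strictly convex domain.** -/
theorem near_ellipse {b ε : ℝ} (hb0 : 0 ≤ b) (hb1 : b < 1) (hε : 0 < ε) {g g1 g2 : ℝ → ℂ}
    (per : Function.Periodic g (2 * Real.pi))
    (h1 : ∀ t, HasDerivAt g (g1 t) t) (h2 : ∀ t, HasDerivAt g1 (g2 t) t)
    (c0 : ∀ t, ‖g t - elp b t‖ ≤ (1 - b) / 10) (c1 : ∀ t, ‖g1 t - elp1 b t‖ ≤ (1 - b) / 10)
    (c2 : ∀ t, ‖g2 t + elp b t‖ ≤ (1 - b) / 10) :
    (∀ t0 t1, g t0 = g t1 → ∃ n : ℤ, t1 = t0 + n * (2 * Real.pi)) ∧
    ∃ D : Set (ℝ × ℝ), IsOpen D ∧ Convex ℝ D ∧ Bornology.IsBounded D ∧ D.Nonempty ∧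
      frontier D = range (fun t => (ε * (g t).re, ε * (g t).im)) ∧
      StrictConvex ℝ (closure D) := by
  have hb : 0 < 1 - b := by linarith
  have hbp : 0 < 1 + b := by linarith
  have hS : Small (fun t => El b (g t) - exp (t * I)) (fun t => El b (g1 t) - I * exp (t * I))
      (fun t => El b (g2 t) - I * (I * exp (t * I))) := by
    have ebd : ∀ z w : ℂ, ‖z - w‖ ≤ (1 - b) / 10 → ‖El b z - El b w‖ ≤ 1 / 10 := by
      intro z w hzw
      rw [← El_sub]
      refine (El_norm hb0 hb1 _).trans ?_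
      rw [div_le_iff₀ hb]
      linarith
    have hexp : ∀ t : ℝ, HasDerivAt (fun s : ℝ => exp (s * I)) (I * exp (t * I)) t :=
      exp_hasDeriv
    refine ⟨?_, ?_, ?_, ?_, ?_, ?_⟩
    · intro t
      change El b (g (t + 2 * Real.pi)) - exp ((t + 2 * Real.pi : ℝ) * I) =
        El b (g t) - exp (t * I)
      rw [per t]
      congr 1
      have : ((t + 2 * Real.pi : ℝ) : ℂ) * I = t * I + 2 * Real.pi * I := by push_cast; ring
      rw [this, Complex.exp_add, Complex.exp_two_pi_mul_I, mul_one]
    · intro t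
      exact (El_deriv b (h1 t)).sub (hexp t)
    · intro t
      exact (El_deriv b (h2 t)).sub ((hexp t).const_mul I)
    · intro t
      have := ebd (g t) (elp b t) (c0 t)
      rwa [El_elp hb0 hb1] at this
    · intro t
      have := ebd (g1 t) (elp1 b t) (c1 t)
      rwa [El_elp1 hb0 hb1] at this
    · intro t
      have h3 : ‖g2 t - (-elp b t)‖ ≤ (1 - b) / 10 := by rw [sub_neg_eq_add]; exact c2 t
      have := ebd (g2 t) (-elp b t) h3
      have h4 : El b (-elp b t) = I * (I * exp (t * I)) := by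
        have h5 : El b (-elp b t) = - El b (elp b t) := by
          have := El_sub b 0 (elp b t)
          rw [zero_sub] at this
          rw [this]
          have h0 : El b 0 = 0 := by
            apply Complex.ext <;> simp [El]
          rw [h0, zero_sub]
        rw [h5, El_elp hb0 hb1, ← mul_assoc, I_mul_I, neg_one_mul]
      rwa [h4] at this
  have hga : ∀ t, ga (fun t => El b (g t) - exp (t * I)) t = El b (g t) := by
    intro t
    unfold ga
    ring
  refine ⟨fun t0 t1 heq => ga_inj hS t0 t1 ?_, ?_⟩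
  · rw [hga, hga, heq]
  obtain ⟨D, hD1, hD2, hD3, hD4, hD5, hD6⟩ := near_circle hS
  -- the homeomorphism
  let F : (ℝ × ℝ) ≃ₜ ℂ :=
    { toFun := fun q => ⟨q.1 / (ε * (1 + b)), q.2 / (ε * (1 - b))⟩
      invFun := fun z => (ε * (1 + b) * z.re, ε * (1 - b) * z.im)
      left_inv := by
        intro q
        have h1 : ε * (1 + b) ≠ 0 := by positivity
        have h2 : ε * (1 - b) ≠ 0 := by positivity
        apply Prod.ext
        · change ε * (1 + b) * (q.1 / (ε * (1 + b))) = q.1
          field_simp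
        · change ε * (1 - b) * (q.2 / (ε * (1 - b))) = q.2
          field_simp
      right_inv := by
        intro z
        have h1 : ε * (1 + b) ≠ 0 := by positivity
        have h2 : ε * (1 - b) ≠ 0 := by positivity
        apply Complex.ext
        · change ε * (1 + b) * z.re / (ε * (1 + b)) = z.re
          field_simp
        · change ε * (1 - b) * z.im / (ε * (1 - b)) = z.im
          field_simp
      continuous_toFun := by
        have h1 : Continuous fun q : ℝ × ℝ =>
            (((q.1 / (ε * (1 + b)) : ℝ) : ℂ) + ((q.2 / (ε * (1 - b)) : ℝ) : ℂ) * I) := by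
          fun_prop
        convert h1 using 2 with q
        apply Complex.ext
        · simp [-ofReal_div, -ofReal_add, -ofReal_sub, -ofReal_mul]
        · simp [-ofReal_div, -ofReal_add, -ofReal_sub, -ofReal_mul]
      continuous_invFun := by fun_prop }
  have hFs : ∀ z : ℂ, F.symm z = (ε * (1 + b) * z.re, ε * (1 - b) * z.im) := fun z => rfl
  have hF : ∀ q : ℝ × ℝ, F q = ⟨q.1 / (ε * (1 + b)), q.2 / (ε * (1 - b))⟩ := fun q => rfl
  have hlin : ∀ (x y : ℝ × ℝ) (u v : ℝ), F (u • x + v • y) = u • F x + v • F y := by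
    intro x y u v
    rw [hF, hF, hF]
    apply Complex.ext
    · simp
      ring
    · simp
      ring
  refine ⟨F ⁻¹' D, F.continuous.isOpen_preimage _ hD1, ?_, ?_, ?_, ?_, ?_⟩
  · intro x hx y hy u v hu hv huv
    change F (u • x + v • y) ∈ D
    rw [hlin]
    exact hD2 hx hy hu hv huv
  · have h3 : F ⁻¹' D = F.symm '' D := (F.symm.image_eq_preimage_symm D).symm
    rw [h3]
    have hcomp : IsCompact (F.symm '' closure D) :=
      (Metric.isCompact_of_isClosed_isBounded isClosed_closure hD3.closure).image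
        F.symm.continuous
    exact hcomp.isBounded.subset (image_mono subset_closure)
  · obtain ⟨z, hz⟩ := hD4
    refine ⟨F.symm z, ?_⟩
    change F (F.symm z) ∈ D
    rwa [F.apply_symm_apply]
  · rw [← F.preimage_frontier, hD5]
    ext q
    constructor
    · rintro ⟨t, ht⟩
      refine ⟨t, ?_⟩
      rw [hga] at ht
      change (ε * (g t).re, ε * (g t).im) = q
      have h3 : F.symm (El b (g t)) = q := by rw [ht, F.symm_apply_apply]
      rw [← h3, hFs]
      unfold El
      apply Prod.ext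
      · change ε * (g t).re = ε * (1 + b) * ((g t).re / (1 + b))
        field_simp
      · change ε * (g t).im = ε * (1 - b) * ((g t).im / (1 - b))
        field_simp
    · rintro ⟨t, ht⟩
      refine ⟨t, ?_⟩
      rw [hga, ← ht, hF]
      unfold El
      apply Complex.ext
      · change (g t).re / (1 + b) = ε * (g t).re / (ε * (1 + b))
        field_simp
      · change (g t).im / (1 - b) = ε * (g t).im / (ε * (1 - b))
        field_simp
  · rw [← F.preimage_closure]
    intro x hx y hy hxy u v hu hv huv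
    rw [← F.preimage_interior]
    change F (u • x + v • y) ∈ interior (closure D)
    rw [hlin]
    exact hD6 hx hy (fun h => hxy (F.injective h)) hu hv huv

end Pool.Agent.Lib.MP_479d4c_gt.H95
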