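import Pool.Agent.Lib.MP_479d4c_gt.S.Iface
import Pool.Agent.Lib.MP_479d4c_gt.H95.NearEllipse

set_option autoImplicit false

open ComplexConjugate Topology Metric
open scoped ContDiff Matrix

namespace CMC82.H95

open CMC46 Pool.Agent.Lib.MP_479d4c_gt.H95

/-- `CvxS` with strict convexity -/
def CvxS' : Prop := ∃ ε : ℝ, 0 < ε ∧ ∀ (g g1 g2 : ℝ → ℂ),
  (∀ t : ℝ, g (t + 2 * Real.pi) = g t ∧ HasDerivAt g (g1 t) t ∧ HasDerivAt g1 (g2 t) t ∧
    ‖g t - (Complex.exp (t * Complex.I) + Complex.exp (-(t * Complex.I)) / 2)‖ ≤ ε ∧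
    ‖g1 t - Complex.I * (Complex.exp (t * Complex.I) - Complex.exp (-(t * Complex.I)) / 2)‖ ≤ ε ∧
    ‖g2 t + (Complex.exp (t * Complex.I) + Complex.exp (-(t * Complex.I)) / 2)‖ ≤ ε) →
  ∀ r : ℝ, 0 < r → ∃ D : Set (ℝ × ℝ), IsOpen D ∧ D.Nonempty ∧ Bornology.IsBounded D ∧
    Convex ℝ D ∧ StrictConvex ℝ (closure D) ∧
    Set.range (fun t : ℝ => ((r * (g t).re, r * (g t).im) : ℝ × ℝ)) = frontier D

theorem cvx_strict : CvxS' := by
  refine ⟨1 / 20, by norm_num, fun g g1 g2 hyp r hr => ?_⟩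
  have e0 : ∀ t : ℝ, elp (1 / 2) t = Complex.exp (t * Complex.I) +
      Complex.exp (-(t * Complex.I)) / 2 := by
    intro t
    unfold elp
    push_cast
    ring
  have e1 : ∀ t : ℝ, elp1 (1 / 2) t = Complex.I * (Complex.exp (t * Complex.I) -
      Complex.exp (-(t * Complex.I)) / 2) := by
    intro t
    unfold elp1
    push_cast
    ring
  have hb : (1 : ℝ) / 20 = (1 - 1 / 2) / 10 := by norm_num
  obtain ⟨-, D, hD1, hD2, hD3, hD4, hD5, hD6⟩ := near_ellipse (b := 1 / 2) (by norm_num) (by norm_num)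
    hr (fun t => (hyp t).1) (fun t => (hyp t).2.1) (fun t => (hyp t).2.2.1)
    (fun t => by rw [e0, ← hb]; exact (hyp t).2.2.2.1)
    (fun t => by rw [e1, ← hb]; exact (hyp t).2.2.2.2.1)
    (fun t => by rw [e0, ← hb]; exact (hyp t).2.2.2.2.2)
  exact ⟨D, hD1, hD4, hD3, hD2, hD6, hD5.symm⟩

theorem cvx_st : CvxS := by
  obtain ⟨ε, hε, h⟩ := cvx_strict
  refine ⟨ε, hε, fun g g1 g2 hyp r hr => ?_⟩
  obtain ⟨D, hD1, hD2, hD3, hD4, -, hD6⟩ := h g g1 g2 hyp r hr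
  exact ⟨D, hD1, hD2, hD3, hD4, hD6⟩

end CMC82.H95
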