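import Mathlib

set_option autoImplicit false

namespace Pool.Agent.Lib.MP_479d4c_gt.H95

open Matrix Metric

/-- Derivative of `X : ℂ → ℝ³` at `p` in the direction `v` (`v = 1` and `v = I` are the two
coordinate directions). -/
noncomputable def dir (X : ℂ → Fin 3 → ℝ) (v p : ℂ) : Fin 3 → ℝ := fderiv ℝ X p v

/-- The normal vector `X_u × X_v` (not normalised). -/
noncomputable def nrm (X : ℂ → Fin 3 → ℝ) (p : ℂ) : Fin 3 → ℝ :=
  dir X 1 p ⨯₃ dir X Complex.I p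

/-- Mean curvature `(E N - 2 F M + G L) / (2 (E G - F²))` of the parametrised surface `X`, with
`E, F, G` the first and `L, M, N` the second fundamental form for the unit normal
`nrm X / |nrm X|`. -/
noncomputable def meanCurvature (X : ℂ → Fin 3 → ℝ) (p : ℂ) : ℝ :=
  let Xu := dir X 1 p
  let Xv := dir X Complex.I p
  let Xuu := dir (dir X 1) 1 p
  let Xuv := dir (dir X 1) Complex.I p
  let Xvv := dir (dir X Complex.I) Complex.I p
  let n := (Real.sqrt (nrm X p ⬝ᵥ nrm X p))⁻¹ • nrm X p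
  ((Xu ⬝ᵥ Xu) * (Xvv ⬝ᵥ n) - 2 * (Xu ⬝ᵥ Xv) * (Xuv ⬝ᵥ n) + (Xv ⬝ᵥ Xv) * (Xuu ⬝ᵥ n)) /
    (2 * ((Xu ⬝ᵥ Xu) * (Xv ⬝ᵥ Xv) - (Xu ⬝ᵥ Xv) ^ 2))

/-- There is a compact embedded disc `X` (real analytic up to the boundary, injective,
immersed) of constant mean curvature `H ≠ 0` whose boundary curve is the boundary of a convex
domain `D` in the plane `x₃ = 0`, and which has points strictly on both sides of this plane. -/
def MainStatement : Prop :=
  ∃ (X : ℂ → Fin 3 → ℝ) (U : Set ℂ) (H : ℝ) (D : Set (ℝ × ℝ)),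
    IsOpen U ∧ closedBall 0 1 ⊆ U ∧ AnalyticOnNhd ℝ X U ∧
    Set.InjOn X (closedBall 0 1) ∧
    (∀ p ∈ closedBall (0 : ℂ) 1, nrm X p ≠ 0) ∧
    H ≠ 0 ∧ (∀ p ∈ closedBall (0 : ℂ) 1, meanCurvature X p = H) ∧
    IsOpen D ∧ D.Nonempty ∧ Bornology.IsBounded D ∧ Convex ℝ D ∧
    X '' sphere 0 1 = (fun q : ℝ × ℝ => ![q.1, q.2, 0]) '' frontier D ∧
    (∃ p ∈ closedBall (0 : ℂ) 1, 0 < X p 2) ∧ (∃ p ∈ closedBall (0 : ℂ) 1, X p 2 < 0)

end Pool.Agent.Lib.MP_479d4c_gt.H95
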