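import Pool.Agent.Lib.MP_479d4c_gt.Wirt
import Pool.Agent.Lib.MP_479d4c_gt.H95.StatementDraft

set_option autoImplicit false

namespace Pool.Agent.Lib.MP_479d4c_gt.H95

open Matrix Metric ComplexConjugate Topology
open CMC46 (HasW wirt wirt_apply)

lemma mc_alg (u v a b m n : Fin 3 → ℝ) (H : ℝ) (hn : n = u ⨯₃ v) (hE : u ⬝ᵥ u = v ⬝ᵥ v)
    (hF : u ⬝ᵥ v = 0) (hne : n ≠ 0) (hL : a + b = (2 * H) • n) :
    ((u ⬝ᵥ u) * (b ⬝ᵥ ((Real.sqrt (n ⬝ᵥ n))⁻¹ • n)) -
      2 * (u ⬝ᵥ v) * (m ⬝ᵥ ((Real.sqrt (n ⬝ᵥ n))⁻¹ • n)) +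
      (v ⬝ᵥ v) * (a ⬝ᵥ ((Real.sqrt (n ⬝ᵥ n))⁻¹ • n))) /
    (2 * ((u ⬝ᵥ u) * (v ⬝ᵥ v) - (u ⬝ᵥ v) ^ 2)) = H := by
  have hq : n ⬝ᵥ n = (v ⬝ᵥ v) ^ 2 := by
    rw [hn, cross_dot_cross, dotProduct_comm v u, hF, hE]
    ring
  have hE0 : 0 ≤ v ⬝ᵥ v := by
    rw [dotProduct]
    exact Finset.sum_nonneg fun i _ => mul_self_nonneg _
  have hnn : n ⬝ᵥ n ≠ 0 := fun h0 => hne (dotProduct_self_eq_zero.1 h0)
  have hEne : v ⬝ᵥ v ≠ 0 := by
    intro h0
    apply hnn
    rw [hq, h0]
    norm_num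
  have hs : Real.sqrt (n ⬝ᵥ n) = v ⬝ᵥ v := by
    rw [hq, Real.sqrt_sq hE0]
  have hsum : b ⬝ᵥ n + a ⬝ᵥ n = 2 * H * (v ⬝ᵥ v) ^ 2 := by
    rw [← add_dotProduct, add_comm, hL, smul_dotProduct, hq, smul_eq_mul]
  simp only [hs, hF, hE, dotProduct_smul, smul_eq_mul]
  set E : ℝ := v ⬝ᵥ v
  have h1 : E * (E⁻¹ * (b ⬝ᵥ n)) - 2 * 0 * (E⁻¹ * (m ⬝ᵥ n)) + E * (E⁻¹ * (a ⬝ᵥ n)) =
      2 * H * E ^ 2 := by
    have : E * (E⁻¹ * (b ⬝ᵥ n)) - 2 * 0 * (E⁻¹ * (m ⬝ᵥ n)) + E * (E⁻¹ * (a ⬝ᵥ n)) =
        (E * E⁻¹) * (b ⬝ᵥ n + a ⬝ᵥ n) := by ring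
    rw [this, mul_inv_cancel₀ hEne, one_mul, hsum]
  rw [h1]
  field_simp
  ring

/-- Mean curvature of a conformal parametrisation that solves the `H`-surface equation
`X_uu + X_vv = 2 H X_u × X_v`. -/
theorem meanCurvature_of_conformal {X : ℂ → Fin 3 → ℝ} {p : ℂ} {H : ℝ}
    (hE : dir X 1 p ⬝ᵥ dir X 1 p = dir X Complex.I p ⬝ᵥ dir X Complex.I p)
    (hF : dir X 1 p ⬝ᵥ dir X Complex.I p = 0) (hn : nrm X p ≠ 0)
    (hL : dir (dir X 1) 1 p + dir (dir X Complex.I) Complex.I p = (2 * H) • nrm X p) :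
    meanCurvature X p = H :=
  mc_alg _ _ _ _ _ _ H rfl hE hF hn hL

/-- The surface with horizontal part `Z` and height `h - c`. -/
def surf (Z : ℂ → ℂ) (h : ℂ → ℝ) (c : ℝ) (z : ℂ) : Fin 3 → ℝ := ![(Z z).re, (Z z).im, h z - c]

lemma surf_hasFDerivAt {Z : ℂ → ℂ} {h : ℂ → ℝ} {c : ℝ} {p A B α β : ℂ} (hZ : HasW Z A B p)
    (hh : HasW (fun y => (h y : ℂ)) α β p) :
    HasFDerivAt (surf Z h c) (ContinuousLinearMap.pi
      ![Complex.reCLM.comp (wirt A B), Complex.imCLM.comp (wirt A B),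
        Complex.reCLM.comp (wirt α β)]) p := by
  rw [hasFDerivAt_pi']
  intro i
  have h1 : HasFDerivAt (fun z => (Z z).re) (Complex.reCLM.comp (wirt A B)) p :=
    Complex.reCLM.hasFDerivAt.comp p hZ
  have h2 : HasFDerivAt (fun z => (Z z).im) (Complex.imCLM.comp (wirt A B)) p :=
    Complex.imCLM.hasFDerivAt.comp p hZ
  have h3 : HasFDerivAt (fun z => ((h z : ℂ)).re) (Complex.reCLM.comp (wirt α β)) p :=
    Complex.reCLM.hasFDerivAt.comp p hh
  have h4 : HasFDerivAt (fun z => h z - c) (Complex.reCLM.comp (wirt α β)) p := by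
    simpa using h3.sub_const c
  fin_cases i
  · exact h1
  · exact h2
  · exact h4

lemma dir_surf {Z : ℂ → ℂ} {h : ℂ → ℝ} {c : ℝ} {p A B α β : ℂ} (hZ : HasW Z A B p)
    (hh : HasW (fun y => (h y : ℂ)) α β p) (v : ℂ) :
    dir (surf Z h c) v p =
      ![(v * A + conj v * B).re, (v * A + conj v * B).im, (v * α + conj v * β).re] := by
  unfold dir
  rw [(surf_hasFDerivAt hZ hh).fderiv]
  funext i
  fin_cases i <;> simp

lemma hasW_mul_const {F : ℂ → ℂ} {a b p : ℂ} (c : ℂ) (h : HasW F a b p) :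
    HasW (fun z => c * F z) (c * a) (c * b) p := h.const_smul c

lemma hasW_conj' {F : ℂ → ℂ} {a b p : ℂ} (h : HasW F a b p) :
    HasW (fun z => conj (F z)) (conj b) (conj a) p := h.st

/-- **Mean curvature from Wirtinger data.**  `X = (Re Z, Im Z, h - c)`, `∂Z = A`, `∂̄Z = B`,
`∂h = α` near `p`. -/
theorem mean_of_wirtinger {U : Set ℂ} (hU : IsOpen U) {Z : ℂ → ℂ} {h : ℂ → ℝ} {A B α : ℂ → ℂ}
    (c : ℝ)
    (hZ : ∀ z ∈ U, HasW Z (A z) (B z) z)
    (hh : ∀ z ∈ U, HasW (fun y => (h y : ℂ)) (α z) (conj (α z)) z)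
    {p : ℂ} (hp : p ∈ U) {Aw Ab Bw Bb αw αb : ℂ}
    (hA : HasW A Aw Ab p) (hB : HasW B Bw Bb p) (hα : HasW α αw αb p)
    (hconf : A p * conj (B p) + α p ^ 2 = 0)
    (hne : α p * B p - conj (α p) * A p ≠ 0 ∨ Complex.normSq (A p) ≠ Complex.normSq (B p))
    {H : ℝ}
    (hL1 : Ab + Bw = 2 * H * (α p * B p - conj (α p) * A p))
    (hL2 : 2 * αb.re = H * (Complex.normSq (A p) - Complex.normSq (B p))) :
    nrm (surf Z h c) p ≠ 0 ∧ meanCurvature (surf Z h c) p = H := by
  -- first derivatives on `U`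
  have hd : ∀ v : ℂ, ∀ z ∈ U, dir (surf Z h c) v z =
      ![(v * A z + conj v * B z).re, (v * A z + conj v * B z).im,
        (v * α z + conj v * conj (α z)).re] := fun v z hz => dir_surf (hZ z hz) (hh z hz) v
  -- second derivatives
  have hdd : ∀ v w : ℂ, dir (dir (surf Z h c) v) w p =
      ![(w * (v * Aw + conj v * Bw) + conj w * (v * Ab + conj v * Bb)).re,
        (w * (v * Aw + conj v * Bw) + conj w * (v * Ab + conj v * Bb)).im,
        (w * (v * αw + conj v * conj αb) + conj w * (v * αb + conj v * conj αw)).re] := by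
    intro v w
    have h1 : dir (surf Z h c) v =ᶠ[𝓝 p] surf (fun z => v * A z + conj v * B z)
        (fun z => (v * α z + conj v * conj (α z)).re) 0 := by
      filter_upwards [hU.mem_nhds hp] with z hz
      rw [hd v z hz, surf, sub_zero]
    have h2 : dir (dir (surf Z h c) v) w p = dir (surf (fun z => v * A z + conj v * B z)
        (fun z => (v * α z + conj v * conj (α z)).re) 0) w p := by
      change fderiv ℝ (dir (surf Z h c) v) p w = _
      rw [Filter.EventuallyEq.fderiv_eq h1]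
      rfl
    rw [h2]
    have h3 : HasW (fun z => v * A z + conj v * B z) (v * Aw + conj v * Bw)
        (v * Ab + conj v * Bb) p := (hasW_mul_const v hA).add (hasW_mul_const (conj v) hB)
    have h4 : HasW (fun z => v * α z + conj v * conj (α z)) (v * αw + conj v * conj αb)
        (v * αb + conj v * conj αw) p :=
      (hasW_mul_const v hα).add (hasW_mul_const (conj v) (hasW_conj' hα))
    have h5 : (fun z => (((v * α z + conj v * conj (α z)).re : ℝ) : ℂ)) =
        (fun z => v * α z + conj v * conj (α z)) := by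
      funext z
      have : v * α z + conj v * conj (α z) = ((2 * (v * α z).re : ℝ) : ℂ) := by
        rw [← map_mul, Complex.add_conj]
      rw [this, Complex.ofReal_re]
    exact dir_surf h3 (by rw [h5]; exact h4) w
  have e1 := hd 1 p hp
  have e2 := hd Complex.I p hp
  have f1 := hdd 1 1
  have f2 := hdd Complex.I Complex.I
  simp only [map_one, one_mul, Complex.conj_I] at e1 e2 f1 f2
  have hn : nrm (surf Z h c) p = ![2 * (α p * B p - conj (α p) * A p).re,
      2 * (α p * B p - conj (α p) * A p).im,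
      Complex.normSq (A p) - Complex.normSq (B p)] := by
    unfold nrm
    rw [e1, e2, cross_apply]
    simp only [cons_val_zero, cons_val_one, cons_val, Complex.normSq_apply, Complex.add_re,
      Complex.add_im, Complex.sub_re, Complex.sub_im, Complex.mul_re, Complex.mul_im,
      Complex.neg_re, Complex.neg_im, Complex.I_re, Complex.I_im, Complex.conj_re,
      Complex.conj_im]
    funext i
    fin_cases i
    · simp
      ring
    · simp
      ring
    · simp
      ring
  have hn0 : nrm (surf Z h c) p ≠ 0 := by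
    intro h0
    rw [hn] at h0
    have g0 := congrFun h0 0
    have g1 := congrFun h0 1
    have g2 := congrFun h0 2
    simp only [cons_val_zero, cons_val_one, cons_val, Pi.zero_apply] at g0 g1 g2
    rcases hne with hne | hne
    · apply hne
      apply Complex.ext
      · rw [Complex.zero_re]; linarith
      · rw [Complex.zero_im]; linarith
    · exact hne (by linarith)
  refine ⟨hn0, meanCurvature_of_conformal ?_ ?_ hn0 ?_⟩
  · rw [e1, e2]
    have k := congrArg Complex.re hconf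
    simp only [pow_two, Complex.add_re, Complex.mul_re, Complex.conj_re, Complex.conj_im,
      Complex.zero_re] at k
    simp only [dotProduct, Fin.sum_univ_three, cons_val_zero, cons_val_one, cons_val,
      Complex.add_re,
      Complex.add_im, Complex.sub_re, Complex.sub_im, Complex.mul_re, Complex.mul_im,
      Complex.neg_re, Complex.neg_im, Complex.I_re, Complex.I_im, Complex.conj_re,
      Complex.conj_im]
    linear_combination 4 * k
  · rw [e1, e2]
    have k := congrArg Complex.im hconf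
    simp only [pow_two, Complex.add_im, Complex.mul_im, Complex.conj_re, Complex.conj_im,
      Complex.zero_im] at k
    simp only [dotProduct, Fin.sum_univ_three, cons_val_zero, cons_val_one, cons_val,
      Complex.add_re,
      Complex.add_im, Complex.sub_re, Complex.sub_im, Complex.mul_re, Complex.mul_im,
      Complex.neg_re, Complex.neg_im, Complex.I_re, Complex.I_im, Complex.conj_re,
      Complex.conj_im]
    linear_combination (-2) * k
  · rw [f1, f2, hn]
    have k1 := congrArg Complex.re hL1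
    have k2 := congrArg Complex.im hL1
    simp only [Complex.add_re, Complex.add_im, Complex.mul_re, Complex.mul_im, Complex.sub_re,
      Complex.sub_im, Complex.conj_re, Complex.conj_im, Complex.ofReal_re, Complex.ofReal_im,
      Complex.re_ofNat, Complex.im_ofNat] at k1 k2
    funext i
    fin_cases i
    · simp
      linear_combination 2 * k1
    · simp
      linear_combination 2 * k2
    · simp
      linear_combination 2 * hL2

end Pool.Agent.Lib.MP_479d4c_gt.H95
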