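import Pool.Agent.Lib.MP_479d4c_gt.S.Iface
import Pool.Agent.Lib.MP_479d4c_gt.H95.MeanCurv

set_option autoImplicit false

open ComplexConjugate Topology Metric
open scoped ContDiff Matrix

namespace CMC82.H95

open CMC46

theorem mean_st : MeanS := by
  intro Z H A B C U c hU hZ hH hgeo p hp
  have hh : ∀ z ∈ U, HasW (fun y => (((H y).re : ℝ) : ℂ)) (C z) (conj (C z)) z := by
    intro z hz
    have h1 := (hH z hz).add (hH z hz).st
    have h2 := h1.const_smul (2⁻¹ : ℂ)
    have e : (fun y => (((H y).re : ℝ) : ℂ)) = fun y => (2⁻¹ : ℂ) • (H y + star (H y)) := by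
      funext y
      have : H y + star (H y) = ((2 * (H y).re : ℝ) : ℂ) := Complex.add_conj (H y)
      rw [this, smul_eq_mul]
      push_cast
      ring
    rw [e]
    refine h2.cast ?_ ?_
    · rw [smul_eq_mul]
      change 2⁻¹ * (C z + conj (conj (C z))) = C z
      rw [Complex.conj_conj]
      ring
    · rw [smul_eq_mul]
      change 2⁻¹ * (conj (C z) + conj (C z)) = conj (C z)
      ring
  obtain ⟨⟨x1, k1⟩, ⟨x2, k2⟩, ⟨x3, k3⟩, k4, k5⟩ := hgeo p hp
  have hne : C p * B p - conj (C p) * A p ≠ 0 ∨
      Complex.normSq (A p) ≠ Complex.normSq (B p) := by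
    by_contra hcon
    push Not at hcon
    obtain ⟨h1, h2⟩ := hcon
    have hAB : Complex.normSq (A p) ≠ 0 := by
      rcases k5 with h | h
      · exact fun h0 => h (Complex.normSq_eq_zero.1 h0)
      · rw [h2]
        exact fun h0 => h (Complex.normSq_eq_zero.1 h0)
    have hC2 : C p ^ 2 = -(A p * conj (B p)) := by linear_combination k4
    have hCn : Complex.normSq (C p) = Complex.normSq (A p) := by
      have e1 : Complex.normSq (C p) ^ 2 = Complex.normSq (A p) ^ 2 := by
        have := congrArg Complex.normSq hC2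
        rw [Complex.normSq_neg, map_pow, map_mul, Complex.normSq_conj, ← h2] at this
        rw [this]; ring
      exact (pow_left_inj₀ (Complex.normSq_nonneg _) (Complex.normSq_nonneg _) two_ne_zero).1 e1
    have e2 : C p * (C p * B p - conj (C p) * A p) = -(2 * Complex.normSq (A p) * A p) := by
      have e3 : B p * conj (B p) = Complex.normSq (A p) := by rw [Complex.mul_conj, h2]
      have e4 : C p * conj (C p) = Complex.normSq (A p) := by rw [Complex.mul_conj, hCn]
      linear_combination B p * hC2 - A p * e3 - A p * e4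
    rw [h1, mul_zero] at e2
    have hA0 : A p ≠ 0 := fun h0 => hAB (by rw [h0, map_zero])
    have : (2 : ℂ) * Complex.normSq (A p) * A p ≠ 0 :=
      mul_ne_zero (mul_ne_zero two_ne_zero (by exact_mod_cast hAB)) hA0
    exact this (neg_eq_zero.1 e2.symm)
  refine Pool.Agent.Lib.MP_479d4c_gt.H95.mean_of_wirtinger (H := -2) hU
    (h := fun y => (H y).re) c hZ hh hp k1 k2 k3 k4 hne ?_ ?_
  · push_cast
    ring
  · rw [Complex.mul_conj, Complex.mul_conj, Complex.sub_re, Complex.ofReal_re, Complex.ofReal_re]
    ring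

end CMC82.H95
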