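import Pool.Agent.Lib.MP_479d4c_gt.S.Iface
import Pool.Agent.Lib.MP_479d4c_gt.H79.Evc
import Pool.Agent.Lib.MP_479d4c_gt.H95.Cvx
import Pool.Agent.Lib.MP_479d4c_gt.H95.Mean

set_option autoImplicit false

open ComplexConjugate Topology Metric
open scoped ContDiff Matrix

namespace CMC82.H95

open CMC46

/-- the final statement with the smoothness condition `P X U` -/
def MainP (P : (ℂ → Fin 3 → ℝ) → Set ℂ → Prop) : Prop :=
  ∃ (X : ℂ → Fin 3 → ℝ) (U : Set ℂ) (H : ℝ) (D : Set (ℝ × ℝ)),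
    IsOpen U ∧ closedBall 0 1 ⊆ U ∧ P X U ∧
    Set.InjOn X (closedBall 0 1) ∧
    (∀ p ∈ closedBall (0 : ℂ) 1, nrm X p ≠ 0) ∧
    H ≠ 0 ∧ (∀ p ∈ closedBall (0 : ℂ) 1, meanCurvature X p = H) ∧
    IsOpen D ∧ D.Nonempty ∧ Bornology.IsBounded D ∧ Convex ℝ D ∧
    X '' sphere 0 1 = (fun q : ℝ × ℝ => ![q.1, q.2, 0]) '' frontier D ∧
    (∃ p ∈ closedBall (0 : ℂ) 1, 0 < X p 2) ∧ (∃ p ∈ closedBall (0 : ℂ) 1, X p 2 < 0)

/-- the same with strict convexity -/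
def MainQ (P : (ℂ → Fin 3 → ℝ) → Set ℂ → Prop) : Prop :=
  ∃ (X : ℂ → Fin 3 → ℝ) (U : Set ℂ) (H : ℝ) (D : Set (ℝ × ℝ)),
    IsOpen U ∧ closedBall 0 1 ⊆ U ∧ P X U ∧
    Set.InjOn X (closedBall 0 1) ∧
    (∀ p ∈ closedBall (0 : ℂ) 1, nrm X p ≠ 0) ∧
    H ≠ 0 ∧ (∀ p ∈ closedBall (0 : ℂ) 1, meanCurvature X p = H) ∧
    IsOpen D ∧ D.Nonempty ∧ Bornology.IsBounded D ∧ Convex ℝ D ∧ StrictConvex ℝ (closure D) ∧
    X '' sphere 0 1 = (fun q : ℝ × ℝ => ![q.1, q.2, 0]) '' frontier D ∧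
    (∃ p ∈ closedBall (0 : ℂ) 1, 0 < X p 2) ∧ (∃ p ∈ closedBall (0 : ℂ) 1, X p 2 < 0)

lemma MainQ.mainP {P : (ℂ → Fin 3 → ℝ) → Set ℂ → Prop} (h : MainQ P) : MainP P := by
  obtain ⟨X, U, H, D, h1, h2, h3, h4, h5, h6, h7, h8, h9, h10, h11, -, h13, h14⟩ := h
  exact ⟨X, U, H, D, h1, h2, h3, h4, h5, h6, h7, h8, h9, h10, h11, h13, h14⟩

/-- SMO, analytic version -/
theorem smo_an (hCls : ClsS) (hPos : PosS) :
    ∀ (d τ : ℝ) (k : ℕ → ℝ) (p1 p2 y z sg be ga : Arr),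
    Sol d τ k p1 p2 y z sg be ga → ∀ c : ℝ,
      AnalyticOnNhd ℝ (pt (Zf d sg be) (Hf d sg ga) c) (ball 0 (6 / 5)) := by
  intro d τ k p1 p2 y z sg be ga hS c w hw
  have hw' := mem_ball_zero_iff.1 hw
  have hs := CMC82.H79.evc_an sg (hCls.1 sg hS.cs) w hw
  have hb := CMC82.H79.evc_an be (hCls.1 be hS.cb) w hw
  have hg := CMC82.H79.evc_an ga (hCls.1 ga hS.cg) w hw
  have hne : ev2 sg w (conj w) ≠ 0 := by
    obtain ⟨s, hs, hs', -, -⟩ := hPos d τ k p1 p2 y z sg be ga hS w hw'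
    rw [hs']
    exact_mod_cast hs.ne'
  have h1 : AnalyticAt ℝ (fun x => ev2 be x (conj x) / ev2 sg x (conj x)) w := hb.div hs hne
  have h2 : AnalyticAt ℝ (fun x => ev2 ga x (conj x) / ev2 sg x (conj x)) w := hg.div hs hne
  have hZ : AnalyticAt ℝ (Zf d sg be) w := by
    have h3 : AnalyticAt ℝ (fun x => conj (ev2 be x (conj x) / ev2 sg x (conj x))) w :=
      ((Complex.conjCLE : ℂ →L[ℝ] ℂ).analyticAt _).comp h1
    exact analyticAt_const.mul h3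
  have hH : AnalyticAt ℝ (Hf d sg ga) w := analyticAt_const.mul h2
  rw [analyticAt_pi_iff]
  intro i
  fin_cases i
  · exact (Complex.reCLM.analyticAt _).comp hZ
  · exact (Complex.imCLM.analyticAt _).comp hZ
  · exact ((Complex.reCLM.analyticAt _).comp hH).sub analyticAt_const

theorem fin_gen (P : (ℂ → Fin 3 → ℝ) → Set ℂ → Prop)
    (hExi : ExiS) (hLow : LowS) (hPos : PosS) (hGeo : GeoS) (hGeo2 : Geo2S)
    (hSmo : ∀ (d τ : ℝ) (k : ℕ → ℝ) (p1 p2 y z sg be ga : Arr),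
      Sol d τ k p1 p2 y z sg be ga → ∀ c : ℝ, P (pt (Zf d sg be) (Hf d sg ga) c) (ball 0 (6 / 5)))
    (hPla : PlaS) (hBcv : BcvS) (hInj : InjS) (hSid : SidS) : MainQ P := by
  obtain ⟨ε, hε, hCvx⟩ := cvx_strict
  obtain ⟨η1, hη1, hBcv⟩ := hBcv ε hε
  obtain ⟨η2, hη2, hInj⟩ := hInj
  obtain ⟨η3, hη3, hSid⟩ := hSid
  set η : ℝ := min η1 (min η2 η3) with hη
  have hη0 : 0 < η := lt_min hη1 (lt_min hη2 hη3)
  obtain ⟨d0, hd0, hExi⟩ := hExi η hη0
  obtain ⟨d, hd1, hd2, hd3⟩ : ∃ d : ℝ, 0 < d ∧ d < d0 ∧ d ≤ η := by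
    refine ⟨min (d0 / 2) η, lt_min (by linarith) hη0, ?_, min_le_right _ _⟩
    exact lt_of_le_of_lt (min_le_left _ _) (by linarith)
  obtain ⟨τ, k, p1, p2, y, z, sg, be, ga, hS, hN⟩ := hExi d hd1 hd2
  have hmono : ∀ {η' : ℝ} {f g : Arr}, η ≤ η' → Near η f g → Near η' f g :=
    fun h hn => ⟨hn.1, hn.2.trans h⟩
  have hη1' : η ≤ η1 := min_le_left _ _
  have hη2' : η ≤ η2 := (min_le_right _ _).trans (min_le_left _ _)
  have hη3' : η ≤ η3 := (min_le_right _ _).trans (min_le_right _ _)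
  have hL := hLow d τ k p1 p2 y z sg be ga hS
  have hsg : ∀ w : ℂ, ‖w‖ ≤ 1 → ev2 sg w (conj w) ≠ 0 := by
    intro w hw
    obtain ⟨s, hs, hs', -, -⟩ := hPos d τ k p1 p2 y z sg be ga hS w (by linarith)
    rw [hs']
    exact_mod_cast hs.ne'
  have hreal : ∀ w : ℂ, ‖w‖ ≤ 1 → Hf d sg ga w = (((Hf d sg ga w).re : ℝ) : ℂ) := by
    intro w hw
    obtain ⟨s, -, -, -, h⟩ := hPos d τ k p1 p2 y z sg be ga hS w (by linarith)
    apply Complex.ext
    · rw [Complex.ofReal_re]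
    · rw [Complex.ofReal_im, h]
  have hsq : 0 < Real.sqrt d := Real.sqrt_pos.2 hd1
  have hsq' : (Real.sqrt d : ℂ) ≠ 0 := by exact_mod_cast hsq.ne'
  have hdne : (d : ℂ) ≠ 0 := by exact_mod_cast hd1.ne'
  set c : ℝ := (Hf d sg ga 1).re with hc
  obtain ⟨g, g1, g2, hg⟩ := hBcv sg be (hmono hη1' hN.s) (hmono hη1' hN.b)
  have hper : ∀ t : ℝ, g (t + 2 * Real.pi) = g t := by
    intro t
    have : Complex.exp (((t + 2 * Real.pi : ℝ) : ℂ) * Complex.I) =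
        Complex.exp (t * Complex.I) := by
      have : ((t + 2 * Real.pi : ℝ) : ℂ) * Complex.I =
          t * Complex.I + 2 * Real.pi * Complex.I := by push_cast; ring
      rw [this, Complex.exp_add, Complex.exp_two_pi_mul_I, mul_one]
    rw [(hg (t + 2 * Real.pi)).1, this, (hg t).1]
  obtain ⟨D, hD1, hD2, hD3, hD4, hD4s, hD5⟩ := hCvx g g1 g2 (fun t => ⟨hper t, (hg t).2⟩)
    (Real.sqrt d) hsq
  have hball : closedBall (0 : ℂ) 1 ⊆ ball 0 (6 / 5) := closedBall_subset_ball (by norm_num)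
  have hmean := mean_st (Zf d sg be) (Hf d sg ga) (gA d p1 p2 sg) (gB d p1 p2 sg)
    (gC d p1 p2 sg) (ball 0 (6 / 5)) c isOpen_ball
    (fun w hw => (hGeo d τ k p1 p2 y z sg be ga hS w (mem_ball_zero_iff.1 hw)).1)
    (fun w hw => (hGeo d τ k p1 p2 y z sg be ga hS w (mem_ball_zero_iff.1 hw)).2)
    (fun w hw => hGeo2 d τ k p1 p2 y z sg be ga hS w (mem_ball_zero_iff.1 hw) _ _ _ rfl rfl rfl)
  have hX : ∀ t : ℝ, pt (Zf d sg be) (Hf d sg ga) c (Complex.exp (t * Complex.I)) =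
      ![Real.sqrt d * (g t).re, Real.sqrt d * (g t).im, 0] := by
    intro t
    have h1 : (Hf d sg ga (Complex.exp (t * Complex.I))).re = c :=
      hPla d τ k p1 p2 y z sg be ga hS _ (Complex.norm_exp_ofReal_mul_I t)
    have h2 : Zf d sg be (Complex.exp (t * Complex.I)) = (Real.sqrt d : ℂ) * g t := by
      rw [(hg t).1]
      rfl
    unfold pt
    rw [h1, h2, sub_self, Complex.re_ofReal_mul, Complex.im_ofReal_mul]
  refine ⟨pt (Zf d sg be) (Hf d sg ga) c, ball 0 (6 / 5), -2, D, isOpen_ball, hball,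
    hSmo d τ k p1 p2 y z sg be ga hS c, ?_, fun p hp => (hmean p (hball hp)).1, by norm_num,
    fun p hp => (hmean p (hball hp)).2, hD1, hD2, hD3, hD4, hD4s, ?_, ?_, ?_⟩
  · intro w1 hw1 w2 hw2 heq
    rw [mem_closedBall_zero_iff] at hw1 hw2
    have h0 := congrFun heq 0
    have h1 := congrFun heq 1
    have h2 := congrFun heq 2
    simp only [pt, Matrix.cons_val_zero, Matrix.cons_val_one, Matrix.cons_val] at h0 h1 h2
    have hZ : Zf d sg be w1 = Zf d sg be w2 := Complex.ext h0 h1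
    have hH : Hf d sg ga w1 = Hf d sg ga w2 := by
      rw [hreal w1 hw1, hreal w2 hw2]
      exact congrArg _ (by linarith)
    refine hInj d sg be ga hd1 (hd3.trans hη2') ⟨hmono hη2' hN.s, hmono hη2' hN.b,
      hmono hη2' hN.g⟩ hL hsg w1 w2 hw1 hw2 ?_ ?_
    · unfold Zf at hZ
      have := mul_left_cancel₀ hsq' hZ
      exact (starRingEnd ℂ).injective this
    · unfold Hf at hH
      exact mul_left_cancel₀ hdne hH
  · rw [← hD5]
    ext x
    constructor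
    · rintro ⟨w, hw, rfl⟩
      have hz1 : ‖w‖ = 1 := mem_sphere_zero_iff_norm.1 hw
      have hz2 : w = Complex.exp ((Complex.arg w : ℝ) * Complex.I) := by
        have := Complex.norm_mul_exp_arg_mul_I w
        rw [hz1, Complex.ofReal_one, one_mul] at this
        exact this.symm
      refine ⟨(Real.sqrt d * (g (Complex.arg w)).re, Real.sqrt d * (g (Complex.arg w)).im),
        Set.mem_range_self _, ?_⟩
      have h1 := hX (Complex.arg w)
      rw [← hz2] at h1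
      exact h1.symm
    · rintro ⟨q, ⟨t, rfl⟩, rfl⟩
      refine ⟨Complex.exp (t * Complex.I), ?_, ?_⟩
      · rw [mem_sphere_zero_iff_norm, Complex.norm_exp_ofReal_mul_I]
      · rw [hX]
  · obtain ⟨w, hw, hw'⟩ := (hSid d sg be ga hd1 (hd3.trans hη3') ⟨hmono hη3' hN.s,
      hmono hη3' hN.b, hmono hη3' hN.g⟩ hL).2
    refine ⟨w, mem_closedBall_zero_iff.2 hw, ?_⟩
    change 0 < (Hf d sg ga w).re - c
    linarith
  · obtain ⟨w, hw, hw'⟩ := (hSid d sg be ga hd1 (hd3.trans hη3') ⟨hmono hη3' hN.s,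
      hmono hη3' hN.b, hmono hη3' hN.g⟩ hL).1
    refine ⟨w, mem_closedBall_zero_iff.2 hw, ?_⟩
    change (Hf d sg ga w).re - c < 0
    linarith

theorem fin_st : FinS :=
  fun hExi _ _ _ _ _ hLow hPos hGeo hGeo2 _ hSmo hPla hBcv _ hInj hSid =>
    (fin_gen (fun X U => ContDiffOn ℝ ∞ X U) hExi hLow hPos hGeo hGeo2 hSmo hPla hBcv
      hInj hSid).mainP

/-- The analytic version, with a strictly convex domain. -/
theorem fin_an (hExi : ExiS) (hCls : ClsS) (hLow : LowS) (hPos : PosS) (hGeo : GeoS)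
    (hGeo2 : Geo2S) (hPla : PlaS) (hBcv : BcvS) (hInj : InjS)
    (hSid : SidS) : MainQ (fun X U => AnalyticOnNhd ℝ X U) :=
  fin_gen _ hExi hLow hPos hGeo hGeo2 (smo_an hCls hPos) hPla hBcv hInj hSid

end CMC82.H95
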