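import Pool.Agent.Lib.MP_479d4c_gt.S.Iface

set_option autoImplicit false

open ComplexConjugate Topology Metric
open scoped ContDiff Matrix

namespace CMC82.H95

open CMC46

theorem low_st (hCls : ClsS) (hEvd : EvdS) : LowS := by
  intro d τ k p1 p2 y z sg be ga hS
  obtain ⟨hcv, hcd, -, -, -, -, h00⟩ := hCls
  have n0 : ‖(0 : ℂ)‖ < 6 / 5 := by rw [norm_zero]; norm_num
  have hd0 : (d : ℂ) ≠ 0 := by exact_mod_cast hS.d_pos.ne'
  -- values at the origin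
  have v1 : ev2 p1 0 0 = 0 := hS.i1 0 n0
  have v2 : ev2 p2 0 0 = 1 := by
    have := hS.i2 0 n0
    rw [this]; ring
  have vy : ev2 y 0 0 = 0 := by rw [h00, hS.iy, Complex.ofReal_zero]
  have vz : ev2 z 0 0 = 0 := by rw [h00, hS.iz, Complex.ofReal_zero]
  have vs : ev2 sg 0 0 = d := by
    rw [hS.hs 0 0 n0 n0, v1, v2]; ring
  have vg : ev2 ga 0 0 = 1 := by
    rw [hS.hg 0 0 n0 n0, v2, vy]; ring
  have vb : ev2 be 0 0 = 0 := by
    rw [hS.hb 0 0 n0 n0, v1, vz]; ring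
  have real_of : ∀ x y : ℝ, (x : ℂ) = y → x = y := fun x y h => by exact_mod_cast h
  -- derivatives of `y` at the origin
  have dy1 : ev2 (dw y) 0 0 = 0 := by rw [hS.ey 0 0 n0 n0, v1]; ring
  have dy2 : ev2 (dv y) 0 0 = 0 := by rw [hS.ey0 0 n0, v1]; ring
  have c1 := hcv _ hS.c1
  have cy := hcv _ hS.cy
  have cs := hcv _ hS.cs
  have cg := hcv _ hS.cg
  -- derivatives of the arrays at the origin
  have e1 : ∀ f : Arr, Cv f → ev2 (dw f) 0 0 = f (1, 0) ∧ ev2 (dv f) 0 0 = f (0, 1) := by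
    intro f _
    rw [h00, h00]
    simp [dw, dv]
  have p1a : HasDerivAt (fun x => ev2 p1 x 0) 1 0 := by
    have h1 : (fun x => ev2 p1 x 0) =ᶠ[𝓝 0] fun x => x := by
      filter_upwards [ball_mem_nhds (0 : ℂ) (show (0 : ℝ) < 6 / 5 by norm_num)] with x hx
      exact hS.i1 x (mem_ball_zero_iff.1 hx)
    exact (hasDerivAt_id (0 : ℂ)).congr_of_eventuallyEq h1
  have p1b : HasDerivAt (fun x => ev2 p1 0 x) (ev2 (dv p1) 0 0) 0 := ((hEvd p1 c1).1 0 0 n0 n0).2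
  have ball_ev : ∀ᶠ x : ℂ in 𝓝 0, ‖x‖ < 6 / 5 := by
    filter_upwards [ball_mem_nhds (0 : ℂ) (show (0 : ℝ) < 6 / 5 by norm_num)] with x hx
    exact mem_ball_zero_iff.1 hx
  have k10 : ev2 (dw sg) 0 0 - d * ev2 (dw ga) 0 0 = 0 := by
    have hl : HasDerivAt (fun x => ev2 sg x 0 - d * ev2 ga x 0)
        (ev2 (dw sg) 0 0 - d * ev2 (dw ga) 0 0) 0 :=
      ((hEvd sg cs).1 0 0 n0 n0).1.sub ((((hEvd ga cg).1 0 0 n0 n0).1).const_mul _)
    have hr : HasDerivAt (fun x => ev2 p1 x 0 * ev2 p1 0 x + d * (ev2 sg x 0 * ev2 y x 0))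
        (1 * ev2 p1 0 0 + ev2 p1 0 0 * ev2 (dv p1) 0 0 +
          d * (ev2 (dw sg) 0 0 * ev2 y 0 0 + ev2 sg 0 0 * ev2 (dw y) 0 0)) 0 :=
      (p1a.mul p1b).add (((((hEvd sg cs).1 0 0 n0 n0).1).mul (((hEvd y cy).1 0 0 n0 n0).1)).const_mul _)
    have heq : (fun x => ev2 sg x 0 - d * ev2 ga x 0) =ᶠ[𝓝 0]
        fun x => ev2 p1 x 0 * ev2 p1 0 x + d * (ev2 sg x 0 * ev2 y x 0) := by
      filter_upwards [ball_ev] with x hx
      rw [hS.hg x 0 hx n0, hS.hs x 0 hx n0]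
      ring
    have := hl.unique (hr.congr_of_eventuallyEq heq)
    rw [this, v1, vy, dy1]
    ring
  have k01 : ev2 (dv sg) 0 0 - d * ev2 (dv ga) 0 0 = 0 := by
    have hl : HasDerivAt (fun x => ev2 sg 0 x - d * ev2 ga 0 x)
        (ev2 (dv sg) 0 0 - d * ev2 (dv ga) 0 0) 0 :=
      ((hEvd sg cs).1 0 0 n0 n0).2.sub ((((hEvd ga cg).1 0 0 n0 n0).2).const_mul _)
    have hr : HasDerivAt (fun x => ev2 p1 0 x * ev2 p1 x 0 + d * (ev2 sg 0 x * ev2 y 0 x))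
        (ev2 (dv p1) 0 0 * ev2 p1 0 0 + ev2 p1 0 0 * 1 +
          d * (ev2 (dv sg) 0 0 * ev2 y 0 0 + ev2 sg 0 0 * ev2 (dv y) 0 0)) 0 :=
      (p1b.mul p1a).add (((((hEvd sg cs).1 0 0 n0 n0).2).mul (((hEvd y cy).1 0 0 n0 n0).2)).const_mul _)
    have heq : (fun x => ev2 sg 0 x - d * ev2 ga 0 x) =ᶠ[𝓝 0]
        fun x => ev2 p1 0 x * ev2 p1 x 0 + d * (ev2 sg 0 x * ev2 y 0 x) := by
      filter_upwards [ball_ev] with x hx
      rw [hS.hg 0 x n0 hx, hS.hs 0 x n0 hx]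
      ring
    have := hl.unique (hr.congr_of_eventuallyEq heq)
    rw [this, v1, vy, dy2]
    ring
  rw [(e1 sg cs).1, (e1 ga cg).1] at k10
  rw [(e1 sg cs).2, (e1 ga cg).2] at k01
  rw [h00] at vs vg vb
  refine ⟨?_, ?_, ?_, ?_, ?_⟩
  · apply real_of
    push_cast
    rw [vs, vg, mul_one]
  · apply real_of
    push_cast
    exact sub_eq_zero.1 k10
  · apply real_of
    push_cast
    exact sub_eq_zero.1 k01
  · apply real_of
    rw [vb, Complex.ofReal_zero]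
  · intro h0
    rw [h0, Complex.ofReal_zero] at vs
    exact hd0 vs.symm

end CMC82.H95
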