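import Mathlib

set_option autoImplicit false

namespace Pool.Agent.Lib.MP_479d4c_gt.H95

open Complex Metric Set

/-- The linear functional `w ↦ ⟨w, e^{iφ}⟩` on the plane. -/
noncomputable def Lf (φ : ℝ) (w : ℂ) : ℝ := w.re * Real.cos φ + w.im * Real.sin φ

lemma Lf_add (φ : ℝ) (w w' : ℂ) : Lf φ (w + w') = Lf φ w + Lf φ w' := by
  simp [Lf]; ring

lemma Lf_smul (φ : ℝ) (c : ℝ) (w : ℂ) : Lf φ (c • w) = c * Lf φ w := by
  simp [Lf]; ring

lemma Lf_exp (φ t : ℝ) : Lf φ (exp (t * I)) = Real.cos (t - φ) := by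
  simp [Lf, exp_ofReal_mul_I_re, exp_ofReal_mul_I_im, Real.cos_sub]

lemma Lf_Iexp (φ t : ℝ) : Lf φ (I * exp (t * I)) = - Real.sin (t - φ) := by
  simp [Lf, exp_ofReal_mul_I_re, exp_ofReal_mul_I_im, Real.sin_sub]
  ring

lemma Lf_le (φ : ℝ) (w : ℂ) : |Lf φ w| ≤ ‖w‖ := by
  have h1 : (Lf φ w) ^ 2 ≤ ‖w‖ ^ 2 := by
    rw [← Complex.normSq_eq_norm_sq, Complex.normSq_apply, Lf]
    nlinarith [Real.sin_sq_add_cos_sq φ, sq_nonneg (w.re * Real.sin φ - w.im * Real.cos φ)]
  exact abs_le_of_sq_le_sq h1 (norm_nonneg _)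

lemma exp_hasDeriv (t : ℝ) : HasDerivAt (fun s : ℝ => exp (s * I)) (I * exp (t * I)) t := by
  have h1 : HasDerivAt (fun s : ℝ => (s : ℂ) * I) (1 * I) t :=
    (Complex.ofRealCLM.hasDerivAt (x := t)).mul_const I
  have h2 := h1.cexp
  simpa [mul_comm] using h2

lemma Lf_hasDeriv (φ : ℝ) {f : ℝ → ℂ} {f' : ℂ} {t : ℝ} (h : HasDerivAt f f' t) :
    HasDerivAt (fun s => Lf φ (f s)) (Lf φ f') t := by
  have h1 : HasDerivAt (fun s => (f s).re) f'.re t :=
    Complex.reCLM.hasFDerivAt.comp_hasDerivAt t h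
  have h2 : HasDerivAt (fun s => (f s).im) f'.im t :=
    Complex.imCLM.hasFDerivAt.comp_hasDerivAt t h
  unfold Lf
  exact (h1.mul_const _).add (h2.mul_const _)

section
variable {δ δ1 δ2 : ℝ → ℂ}

/-- The curve. -/
noncomputable def ga (δ : ℝ → ℂ) (t : ℝ) : ℂ := exp (t * I) + δ t

lemma ga_per (hper : Function.Periodic δ (2 * Real.pi)) : Function.Periodic (ga δ) (2 * Real.pi) := by
  intro t
  unfold ga
  rw [hper t]
  congr 1
  have : ((t + 2 * Real.pi : ℝ) : ℂ) * I = t * I + 2 * Real.pi * I := by push_cast; ring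
  rw [this, Complex.exp_add, Complex.exp_two_pi_mul_I, mul_one]

/-- Uniqueness of critical points in the region `cos ≥ 4/5`, for parameters in `[-π, π]`
around `φ`. -/
lemma crit_unique_aux (h2 : ∀ t, HasDerivAt δ1 (δ2 t) t) (b2 : ∀ t, ‖δ2 t‖ ≤ 1 / 10)
    (φ s0 s1 : ℝ) (h0l : -Real.pi ≤ s0) (h1u : s1 ≤ Real.pi) (hlt : s0 < s1)
    (hc0 : 4 / 5 ≤ Real.cos s0) (hc1 : 4 / 5 ≤ Real.cos s1)
    (hg0 : - Real.sin s0 + Lf φ (δ1 (s0 + φ)) = 0) (hg1 : - Real.sin s1 + Lf φ (δ1 (s1 + φ)) = 0) :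
    False := by
  have hder : ∀ s, HasDerivAt (fun s => - Real.sin s + Lf φ (δ1 (s + φ)))
      (- Real.cos s + Lf φ (δ2 (s + φ))) s := by
    intro s
    have ha : HasDerivAt (fun s : ℝ => s + φ) 1 s := (hasDerivAt_id s).add_const φ
    have hb : HasDerivAt (fun s => δ1 (s + φ)) ((1 : ℝ) • δ2 (s + φ)) s :=
      (h2 (s + φ)).scomp s ha
    rw [one_smul] at hb
    exact (Real.hasDerivAt_sin s).neg.add (Lf_hasDeriv φ hb)
  obtain ⟨c, hc, hc'⟩ := exists_hasDerivAt_eq_zero hlt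
    (fun s _ => (hder s).continuousAt.continuousWithinAt) (by rw [hg0, hg1]) (fun s _ => hder s)
  have hcos : 4 / 5 ≤ Real.cos c := by
    rcases le_total 0 c with h | h
    · exact hc1.trans (Real.cos_le_cos_of_nonneg_of_le_pi h h1u hc.2.le)
    · have := Real.cos_le_cos_of_nonneg_of_le_pi (x := -c) (y := -s0) (by linarith) (by linarith)
        (by linarith [hc.1])
      rw [Real.cos_neg, Real.cos_neg] at this
      exact hc0.trans this
  have := (abs_le.mp ((Lf_le φ (δ2 (c + φ))).trans (b2 _))).2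
  linarith

lemma exists_shift (x : ℝ) : ∃ n : ℤ, -Real.pi ≤ x + n * (2 * Real.pi) ∧
    x + n * (2 * Real.pi) ≤ Real.pi := by
  have hp := Real.pi_pos
  refine ⟨-round (x / (2 * Real.pi)), ?_⟩
  have h := abs_sub_round (x / (2 * Real.pi))
  rw [abs_le] at h
  have hx : x = x / (2 * Real.pi) * (2 * Real.pi) := by field_simp
  push_cast
  constructor
  · nlinarith [h.1, h.2]
  · nlinarith [h.1, h.2]

lemma crit_unique (hper1 : Function.Periodic δ1 (2 * Real.pi))
    (h2 : ∀ t, HasDerivAt δ1 (δ2 t) t) (b2 : ∀ t, ‖δ2 t‖ ≤ 1 / 10)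
    (φ t0 t1 : ℝ) (hc0 : 4 / 5 ≤ Real.cos (t0 - φ)) (hc1 : 4 / 5 ≤ Real.cos (t1 - φ))
    (hg0 : - Real.sin (t0 - φ) + Lf φ (δ1 t0) = 0) (hg1 : - Real.sin (t1 - φ) + Lf φ (δ1 t1) = 0) :
    ∃ n : ℤ, t1 = t0 + n * (2 * Real.pi) := by
  obtain ⟨m0, h0l, h0u⟩ := exists_shift (t0 - φ)
  obtain ⟨m1, h1l, h1u⟩ := exists_shift (t1 - φ)
  have key : ∀ (t : ℝ) (m : ℤ), 4 / 5 ≤ Real.cos (t - φ) → - Real.sin (t - φ) + Lf φ (δ1 t) = 0 →
      4 / 5 ≤ Real.cos (t - φ + m * (2 * Real.pi)) ∧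
      - Real.sin (t - φ + m * (2 * Real.pi)) + Lf φ (δ1 (t - φ + m * (2 * Real.pi) + φ)) = 0 := by
    intro t m hc hg
    have e1 : Real.cos (t - φ + m * (2 * Real.pi)) = Real.cos (t - φ) := Real.cos_add_int_mul_two_pi _ _
    have e2 : Real.sin (t - φ + m * (2 * Real.pi)) = Real.sin (t - φ) := Real.sin_add_int_mul_two_pi _ _
    have e3 : δ1 (t - φ + m * (2 * Real.pi) + φ) = δ1 t := by
      have : t - φ + m * (2 * Real.pi) + φ = t + m * (2 * Real.pi) := by ring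
      rw [this]; exact hper1.int_mul m t
    rw [e1, e2, e3]; exact ⟨hc, hg⟩
  obtain ⟨k0, k0'⟩ := key t0 m0 hc0 hg0
  obtain ⟨k1, k1'⟩ := key t1 m1 hc1 hg1
  rcases lt_trichotomy (t0 - φ + m0 * (2 * Real.pi)) (t1 - φ + m1 * (2 * Real.pi)) with h | h | h
  · exact (crit_unique_aux h2 b2 φ _ _ h0l h1u h k0 k1 k0' k1').elim
  · refine ⟨m0 - m1, ?_⟩
    push_cast
    linarith
  · exact (crit_unique_aux h2 b2 φ _ _ h1l h0u h k1 k0 k1' k0').elim

/-- Hypotheses on the perturbation. -/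
structure Small (δ δ1 δ2 : ℝ → ℂ) : Prop where
  per : Function.Periodic δ (2 * Real.pi)
  h1 : ∀ t, HasDerivAt δ (δ1 t) t
  h2 : ∀ t, HasDerivAt δ1 (δ2 t) t
  b0 : ∀ t, ‖δ t‖ ≤ 1 / 10
  b1 : ∀ t, ‖δ1 t‖ ≤ 1 / 10
  b2 : ∀ t, ‖δ2 t‖ ≤ 1 / 10

lemma Small.per1 (h : Small δ δ1 δ2) : Function.Periodic δ1 (2 * Real.pi) := by
  intro t
  have ha : HasDerivAt (fun s : ℝ => s + 2 * Real.pi) 1 t := (hasDerivAt_id t).add_const _
  have hb : HasDerivAt (fun s => δ (s + 2 * Real.pi)) ((1 : ℝ) • δ1 (t + 2 * Real.pi)) t :=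
    (h.h1 (t + 2 * Real.pi)).scomp t ha
  rw [one_smul] at hb
  have hc : (fun s => δ (s + 2 * Real.pi)) = δ := funext fun s => h.per s
  rw [hc] at hb
  exact hb.unique (h.h1 t)

lemma ga_deriv (h : Small δ δ1 δ2) (φ t : ℝ) :
    HasDerivAt (fun s => Lf φ (ga δ s)) (- Real.sin (t - φ) + Lf φ (δ1 t)) t := by
  have h1 : HasDerivAt (ga δ) (I * exp (t * I) + δ1 t) t := (exp_hasDeriv t).add (h.h1 t)
  have h2 := Lf_hasDeriv φ h1
  rwa [Lf_add, Lf_Iexp] at h2

lemma ga_cont (h : Small δ δ1 δ2) : Continuous (ga δ) := by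
  have : ∀ t : ℝ, HasDerivAt (ga δ) (I * exp (t * I) + δ1 t) t := fun t =>
    (exp_hasDeriv t).add (h.h1 t)
  exact continuous_iff_continuousAt.2 fun t => (this t).continuousAt

lemma ga_range (h : Small δ δ1 δ2) : range (ga δ) = ga δ '' Icc 0 (2 * Real.pi) := by
  have hp : 0 < 2 * Real.pi := Real.two_pi_pos
  have := (ga_per h.per).image_Icc hp 0
  rw [zero_add] at this
  exact this.symm

lemma ga_compact (h : Small δ δ1 δ2) : IsCompact (range (ga δ)) := by
  rw [ga_range h]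
  exact isCompact_Icc.image (ga_cont h)

lemma Lf_cont (φ : ℝ) : Continuous (Lf φ) := by
  unfold Lf
  fun_prop

/-- A maximiser of `Lf φ` on the curve is a critical point in the region `cos ≥ 4/5`. -/
lemma max_props (h : Small δ δ1 δ2) (φ t0 : ℝ) (hmax : ∀ t, Lf φ (ga δ t) ≤ Lf φ (ga δ t0)) :
    4 / 5 ≤ Real.cos (t0 - φ) ∧ - Real.sin (t0 - φ) + Lf φ (δ1 t0) = 0 := by
  constructor
  · have h1 := hmax φ
    unfold ga at h1
    rw [Lf_add, Lf_add, Lf_exp, Lf_exp, sub_self, Real.cos_zero] at h1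
    have h2 := (abs_le.mp ((Lf_le φ (δ φ)).trans (h.b0 _))).1
    have h3 := (abs_le.mp ((Lf_le φ (δ t0)).trans (h.b0 _))).2
    linarith
  · have hl : IsLocalMax (fun s => Lf φ (ga δ s)) t0 := Filter.Eventually.of_forall hmax
    exact hl.hasDerivAt_eq_zero (ga_deriv h φ t0)

lemma exists_max (h : Small δ δ1 δ2) (φ : ℝ) : ∃ t0, ∀ t, Lf φ (ga δ t) ≤ Lf φ (ga δ t0) := by
  obtain ⟨x, hx, hx'⟩ := (ga_compact h).exists_isMaxOn (range_nonempty _)
    (Lf_cont φ).continuousOn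
  obtain ⟨t0, rfl⟩ := hx
  exact ⟨t0, fun t => hx' (mem_range_self t)⟩

lemma max_unique (h : Small δ δ1 δ2) (φ t0 t1 : ℝ)
    (hmax : ∀ t, Lf φ (ga δ t) ≤ Lf φ (ga δ t0)) (heq : Lf φ (ga δ t1) = Lf φ (ga δ t0)) :
    ga δ t1 = ga δ t0 := by
  have h0 := max_props h φ t0 hmax
  have h1 := max_props h φ t1 (fun t => (hmax t).trans heq.ge)
  obtain ⟨n, hn⟩ := crit_unique h.per1 h.h2 h.b2 φ t0 t1 h0.1 h1.1 h0.2 h1.2
  rw [hn]
  exact (ga_per h.per).int_mul n t0

/-- Every complex number is `r e^{iφ}` with real `r ≥ 0`. -/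
lemma exists_polar (w : ℂ) : ∃ φ : ℝ, w = ‖w‖ * exp (φ * I) :=
  ⟨arg w, (norm_mul_exp_arg_mul_I w).symm⟩

/-- Every point of the curve is a maximiser in some direction. -/
lemma exists_dir (h : Small δ δ1 δ2) (t0 : ℝ) :
    ∃ φ, ∀ t, Lf φ (ga δ t) ≤ Lf φ (ga δ t0) := by
  obtain ⟨φ, hφ⟩ := exists_polar (exp (t0 * I) - I * δ1 t0)
  set r : ℝ := ‖exp (t0 * I) - I * δ1 t0‖ with hr
  have hre := congrArg Complex.re hφ
  have him := congrArg Complex.im hφ
  have e1 : ((r : ℂ) * exp (φ * I)).re = r * Real.cos φ := by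
    rw [Complex.re_ofReal_mul, exp_ofReal_mul_I_re]
  have e2 : ((r : ℂ) * exp (φ * I)).im = r * Real.sin φ := by
    rw [Complex.im_ofReal_mul, exp_ofReal_mul_I_im]
  rw [e1] at hre
  rw [e2] at him
  simp only [sub_re, sub_im, mul_re, mul_im, I_re, I_im, exp_ofReal_mul_I_re,
    exp_ofReal_mul_I_im, zero_mul, one_mul, zero_sub, zero_add, sub_neg_eq_add] at hre him
  have hn := h.b1 t0
  have hre1 := abs_le.mp ((Complex.abs_re_le_norm (δ1 t0)).trans hn)
  have him1 := abs_le.mp ((Complex.abs_im_le_norm (δ1 t0)).trans hn)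
  have hr1 : r ≤ 11 / 10 := by
    calc r ≤ ‖exp (t0 * I)‖ + ‖I * δ1 t0‖ := norm_sub_le _ _
      _ ≤ 1 + 1 / 10 := by
        rw [norm_exp_ofReal_mul_I, norm_mul, norm_I, one_mul]; linarith
      _ = 11 / 10 := by norm_num
  have hr2 : 9 / 10 ≤ r := by
    have : ‖exp (t0 * I)‖ - ‖I * δ1 t0‖ ≤ r := norm_sub_norm_le _ _
    rw [norm_exp_ofReal_mul_I, norm_mul, norm_I, one_mul] at this
    linarith
  -- the derivative vanishes at t0
  have hcrit : - Real.sin (t0 - φ) + Lf φ (δ1 t0) = 0 := by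
    have h3 : r * (- Real.sin (t0 - φ) + Lf φ (δ1 t0)) = 0 := by
      rw [Real.sin_sub, Lf]
      have : r * (-(Real.sin t0 * Real.cos φ - Real.cos t0 * Real.sin φ) +
          ((δ1 t0).re * Real.cos φ + (δ1 t0).im * Real.sin φ)) =
          (-Real.sin t0 + (δ1 t0).re) * (r * Real.cos φ) +
          (Real.cos t0 + (δ1 t0).im) * (r * Real.sin φ) := by ring
      rw [this, ← hre, ← him]
      ring
    rcases mul_eq_zero.1 h3 with h4 | h4
    · linarith
    · exact h4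
  have hcos : 4 / 5 ≤ Real.cos (t0 - φ) := by
    have h3 : r * Real.cos (t0 - φ) = 1 + (Real.cos t0 * (δ1 t0).im - Real.sin t0 * (δ1 t0).re) := by
      rw [Real.cos_sub]
      have : r * (Real.cos t0 * Real.cos φ + Real.sin t0 * Real.sin φ) =
        Real.cos t0 * (r * Real.cos φ) + Real.sin t0 * (r * Real.sin φ) := by ring
      rw [this, ← hre, ← him]
      have := Real.sin_sq_add_cos_sq t0
      nlinarith [this]
    have h4 : |Real.cos t0 * (δ1 t0).im - Real.sin t0 * (δ1 t0).re| ≤ 1 / 10 := by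
      have h5 : (Real.cos t0 * (δ1 t0).im - Real.sin t0 * (δ1 t0).re) ^ 2 ≤ ‖δ1 t0‖ ^ 2 := by
        rw [← Complex.normSq_eq_norm_sq, Complex.normSq_apply]
        nlinarith [Real.sin_sq_add_cos_sq t0,
          sq_nonneg ((δ1 t0).im * Real.sin t0 + (δ1 t0).re * Real.cos t0)]
      exact (abs_le_of_sq_le_sq h5 (norm_nonneg _)).trans hn
    have h6 := (abs_le.mp h4).1
    by_contra hlt
    push Not at hlt
    nlinarith
  obtain ⟨t1, ht1⟩ := exists_max h φ
  have h1 := max_props h φ t1 ht1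
  obtain ⟨n, hn'⟩ := crit_unique h.per1 h.h2 h.b2 φ t0 t1 hcos h1.1 hcrit h1.2
  refine ⟨φ, fun t => ?_⟩
  have := ht1 t
  rw [hn'] at this
  rwa [(ga_per h.per).int_mul n t0] at this

/-- Injectivity modulo `2π`. -/
theorem ga_inj (h : Small δ δ1 δ2) (t0 t1 : ℝ) (heq : ga δ t0 = ga δ t1) :
    ∃ n : ℤ, t1 = t0 + n * (2 * Real.pi) := by
  obtain ⟨φ, hφ⟩ := exists_dir h t0
  have h0 := max_props h φ t0 hφ
  have h1 := max_props h φ t1 (fun t => heq ▸ hφ t)
  exact crit_unique h.per1 h.h2 h.b2 φ t0 t1 h0.1 h1.1 h0.2 h1.2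

/-! ### The convex hull -/

/-- A closed convex set adapted to the maximiser `p` of `Lf φ`. -/
lemma convex_aux (φ c e M : ℝ) (p : ℂ) :
    Convex ℝ {z : ℂ | ‖z - p‖ ≤ e + c * (M - Lf φ z)} := by
  intro x hx y hy a b ha hb hab
  change ‖x - p‖ ≤ e + c * (M - Lf φ x) at hx
  change ‖y - p‖ ≤ e + c * (M - Lf φ y) at hy
  change ‖a • x + b • y - p‖ ≤ e + c * (M - Lf φ (a • x + b • y))
  have h1 : a • x + b • y - p = a • (x - p) + b • (y - p) := by
    have : p = a • p + b • p := by rw [← add_smul, hab, one_smul]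
    conv_lhs => rw [this]
    rw [smul_sub, smul_sub]
    abel
  rw [h1, Lf_add, Lf_smul, Lf_smul]
  have h2 : ‖a • (x - p) + b • (y - p)‖ ≤ a * ‖x - p‖ + b * ‖y - p‖ := by
    refine (norm_add_le _ _).trans ?_
    rw [norm_smul, norm_smul, Real.norm_eq_abs, Real.norm_eq_abs, abs_of_nonneg ha,
      abs_of_nonneg hb]
  have h3 : a * ‖x - p‖ ≤ a * (e + c * (M - Lf φ x)) := mul_le_mul_of_nonneg_left hx ha
  have h4 : b * ‖y - p‖ ≤ b * (e + c * (M - Lf φ y)) := mul_le_mul_of_nonneg_left hy hb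
  have h5 : a * (e + c * (M - Lf φ x)) + b * (e + c * (M - Lf φ y)) =
      (a + b) * (e + c * M) - c * (a * Lf φ x + b * Lf φ y) := by ring
  rw [hab] at h5
  linarith

lemma closed_aux (φ c e M : ℝ) (p : ℂ) :
    IsClosed {z : ℂ | ‖z - p‖ ≤ e + c * (M - Lf φ z)} := by
  apply isClosed_le
  · fun_prop
  · unfold Lf
    fun_prop

/-- Continuous linear functionals on the plane. -/
lemma exists_Lf (f : ℂ →L[ℝ] ℝ) : ∃ (r φ : ℝ), 0 ≤ r ∧ ∀ z, f z = r * Lf φ z := by
  obtain ⟨φ, hφ⟩ := exists_polar (⟨f 1, f I⟩ : ℂ)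
  refine ⟨‖(⟨f 1, f I⟩ : ℂ)‖, φ, norm_nonneg _, fun z => ?_⟩
  have hre := congrArg Complex.re hφ
  have him := congrArg Complex.im hφ
  rw [Complex.re_ofReal_mul, exp_ofReal_mul_I_re] at hre
  rw [Complex.im_ofReal_mul, exp_ofReal_mul_I_im] at him
  change f 1 = _ at hre
  change f I = _ at him
  have hz : f z = z.re * f 1 + z.im * f I := by
    have : z = z.re • (1 : ℂ) + z.im • I := by
      apply Complex.ext <;> simp
    conv_lhs => rw [this]
    rw [map_add, map_smul, map_smul, smul_eq_mul, smul_eq_mul]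
  rw [hz]
  unfold Lf
  linear_combination z.re * hre + z.im * him

/-- The closed convex hull of the curve. -/
noncomputable def KK (δ : ℝ → ℂ) : Set ℂ := closure (convexHull ℝ (range (ga δ)))

lemma KK_closed : IsClosed (KK δ) := isClosed_closure

lemma KK_convex : Convex ℝ (KK δ) := (convex_convexHull ℝ _).closure

lemma KK_sub (t : ℝ) : ga δ t ∈ KK δ := subset_closure (subset_convexHull ℝ _ (mem_range_self t))

lemma KK_min {C : Set ℂ} (h1 : Convex ℝ C) (h2 : IsClosed C) (h3 : ∀ t, ga δ t ∈ C) :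
    KK δ ⊆ C :=
  closure_minimal (convexHull_min (by rintro _ ⟨t, rfl⟩; exact h3 t) h1) h2

lemma KK_bdd (h : Small δ δ1 δ2) : Bornology.IsBounded (KK δ) :=
  (isBounded_convexHull.2 (ga_compact h).isBounded).closure

lemma KK_le (φ M : ℝ) (hM : ∀ t, Lf φ (ga δ t) ≤ M) (z : ℂ) (hz : z ∈ KK δ) : Lf φ z ≤ M := by
  have hconv : Convex ℝ {z : ℂ | Lf φ z ≤ M} := by
    intro x hx y hy a b ha hb hab
    change Lf φ (a • x + b • y) ≤ M
    rw [Lf_add, Lf_smul, Lf_smul]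
    have h1 : a * Lf φ x ≤ a * M := mul_le_mul_of_nonneg_left hx ha
    have h2 : b * Lf φ y ≤ b * M := mul_le_mul_of_nonneg_left hy hb
    calc _ ≤ a * M + b * M := add_le_add h1 h2
      _ = M := by rw [← add_mul, hab, one_mul]
  exact KK_min hconv (isClosed_le (Lf_cont φ) continuous_const) hM hz

lemma ball_sub (h : Small δ δ1 δ2) : ball (0 : ℂ) (9 / 10) ⊆ KK δ := by
  intro z hz
  by_contra hn
  obtain ⟨f, u, hf1, hf2⟩ := geometric_hahn_banach_closed_point KK_convex KK_closed hn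
  obtain ⟨r, φ, hr, hf⟩ := exists_Lf f
  have h1 : f (ga δ φ) < f z := (hf1 _ (KK_sub φ)).trans hf2
  rw [hf, hf] at h1
  have hr0 : 0 < r := by
    rcases eq_or_lt_of_le hr with h0 | h0
    · rw [← h0] at h1; simp at h1
    · exact h0
  have h2 := (mul_lt_mul_iff_right₀ hr0).1 h1
  have h3 : 9 / 10 ≤ Lf φ (ga δ φ) := by
    unfold ga
    rw [Lf_add, Lf_exp, sub_self, Real.cos_zero]
    have := (abs_le.mp ((Lf_le φ (δ φ)).trans (h.b0 _))).1
    linarith
  have h4 := (le_abs_self _).trans (Lf_le φ z)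
  rw [mem_ball_zero_iff] at hz
  linarith

lemma interior_nonempty' (h : Small δ δ1 δ2) : (interior (KK δ)).Nonempty :=
  ⟨0, interior_mono (ball_sub h) (by
    rw [isOpen_ball.interior_eq]; simp [mem_ball])⟩

lemma range_sub_frontier (h : Small δ δ1 δ2) : range (ga δ) ⊆ frontier (KK δ) := by
  rintro _ ⟨t0, rfl⟩
  obtain ⟨φ, hφ⟩ := exists_dir h t0
  rw [KK_closed.frontier_eq]
  refine ⟨KK_sub t0, fun hint => ?_⟩
  rw [mem_interior_iff_mem_nhds, Metric.mem_nhds_iff] at hint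
  obtain ⟨ε, hε, hball⟩ := hint
  have hmem : ga δ t0 + (ε / 2 : ℝ) • exp (φ * I) ∈ KK δ := by
    apply hball
    rw [mem_ball, dist_eq_norm, add_sub_cancel_left, norm_smul, norm_exp_ofReal_mul_I, mul_one,
      Real.norm_eq_abs, abs_of_pos (by linarith)]
    linarith
  have := KK_le φ _ hφ _ hmem
  rw [Lf_add, Lf_smul, Lf_exp, sub_self, Real.cos_zero] at this
  linarith

/-- The exposed face in direction `φ` is one point. -/
lemma face (h : Small δ δ1 δ2) (φ t0 : ℝ) (ht0 : ∀ t, Lf φ (ga δ t) ≤ Lf φ (ga δ t0))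
    (w : ℂ) (hw : w ∈ KK δ) (hw0 : Lf φ w = Lf φ (ga δ t0)) : w = ga δ t0 := by
  have key : ∀ ε > 0, ‖w - ga δ t0‖ ≤ ε := by
    intro ε hε
    -- the far part of the curve
    have hcomp : IsCompact (range (ga δ) ∩ {z | ε ≤ ‖z - ga δ t0‖}) := by
      apply (ga_compact h).inter_right
      exact isClosed_le continuous_const (by fun_prop)
    have hη : ∃ η > 0, ∀ z ∈ range (ga δ) ∩ {z | ε ≤ ‖z - ga δ t0‖},
        η ≤ Lf φ (ga δ t0) - Lf φ z := by
      rcases (range (ga δ) ∩ {z | ε ≤ ‖z - ga δ t0‖}).eq_empty_or_nonempty with he | he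
      · exact ⟨1, one_pos, fun z hz => by rw [he] at hz; exact absurd hz (notMem_empty z)⟩
      · obtain ⟨x, hx, hx'⟩ := hcomp.exists_isMaxOn he (Lf_cont φ).continuousOn
        obtain ⟨⟨t, rfl⟩, hx2⟩ := hx
        refine ⟨Lf φ (ga δ t0) - Lf φ (ga δ t), ?_, fun z hz => ?_⟩
        · rcases lt_or_eq_of_le (ht0 t) with h1 | h1
          · exact sub_pos.2 h1
          · exfalso
            have h2 := max_unique h φ t0 t ht0 h1
            change ε ≤ ‖ga δ t - ga δ t0‖ at hx2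
            rw [h2, sub_self, norm_zero] at hx2
            linarith
        · have := hx' hz
          change Lf φ z ≤ Lf φ (ga δ t) at this
          linarith
    obtain ⟨η, hη0, hη⟩ := hη
    obtain ⟨R, hR⟩ := (ga_compact h).isBounded.exists_norm_le
    have hR0 : 0 ≤ R := (norm_nonneg _).trans (hR _ (mem_range_self 0))
    have hsub : KK δ ⊆ {z : ℂ | ‖z - ga δ t0‖ ≤ ε + 2 * R / η * (Lf φ (ga δ t0) - Lf φ z)} := by
      apply KK_min (convex_aux _ _ _ _ _) (closed_aux _ _ _ _ _)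
      intro t
      change ‖ga δ t - ga δ t0‖ ≤ ε + 2 * R / η * (Lf φ (ga δ t0) - Lf φ (ga δ t))
      rcases lt_or_ge ‖ga δ t - ga δ t0‖ ε with h1 | h1
      · have : 0 ≤ 2 * R / η * (Lf φ (ga δ t0) - Lf φ (ga δ t)) :=
          mul_nonneg (by positivity) (sub_nonneg.2 (ht0 t))
        linarith
      · have h2 := hη _ ⟨mem_range_self t, h1⟩
        have h3 : 2 * R ≤ 2 * R / η * (Lf φ (ga δ t0) - Lf φ (ga δ t)) := by
          calc 2 * R = 2 * R / η * η := by field_simp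
            _ ≤ _ := mul_le_mul_of_nonneg_left h2 (by positivity)
        have h4 : ‖ga δ t - ga δ t0‖ ≤ 2 * R := by
          refine (norm_sub_le _ _).trans ?_
          have := hR _ (mem_range_self t)
          have := hR _ (mem_range_self t0)
          linarith
        linarith
    have := hsub hw
    change ‖w - ga δ t0‖ ≤ ε + 2 * R / η * (Lf φ (ga δ t0) - Lf φ w) at this
    rw [hw0, sub_self, mul_zero, add_zero] at this
    exact this
  have h0 : ‖w - ga δ t0‖ ≤ 0 := le_of_forall_pos_le_add fun ε hε => by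
    rw [zero_add]; exact key ε hε
  exact sub_eq_zero.1 (norm_le_zero_iff.1 h0)

/-- Supporting line at a point of `KK` outside the interior. -/
lemma exists_support (h : Small δ δ1 δ2) (w : ℂ) (hw : w ∉ interior (KK δ)) :
    ∃ φ, ∀ z ∈ KK δ, Lf φ z ≤ Lf φ w := by
  obtain ⟨f, hf⟩ := geometric_hahn_banach_open_point KK_convex.interior
    isOpen_interior hw
  obtain ⟨r, φ, hr, hf'⟩ := exists_Lf f
  have hr0 : 0 < r := by
    obtain ⟨z, hz⟩ := interior_nonempty' h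
    have h1 := hf z hz
    rw [hf', hf'] at h1
    rcases eq_or_lt_of_le hr with h0 | h0
    · rw [← h0] at h1; simp at h1
    · exact h0
  have hint : ∀ z ∈ interior (KK δ), Lf φ z < Lf φ w := by
    intro z hz
    have h1 := hf z hz
    rw [hf', hf'] at h1
    exact (mul_lt_mul_iff_right₀ hr0).1 h1
  have h1 : closure (interior (KK δ)) = closure (KK δ) :=
    KK_convex.closure_interior_eq_closure_of_nonempty_interior (interior_nonempty' h)
  refine ⟨φ, fun z hz => ?_⟩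
  have h2 : z ∈ closure (interior (KK δ)) := by rw [h1]; exact subset_closure hz
  have h3 : closure (interior (KK δ)) ⊆ {z | Lf φ z ≤ Lf φ w} :=
    closure_minimal (fun z hz => (hint z hz).le) (isClosed_le (Lf_cont φ) continuous_const)
  exact h3 h2

lemma frontier_sub_range (h : Small δ δ1 δ2) : frontier (KK δ) ⊆ range (ga δ) := by
  intro w hw
  rw [KK_closed.frontier_eq] at hw
  obtain ⟨φ, hcl⟩ := exists_support h w hw.2
  obtain ⟨t0, ht0⟩ := exists_max h φ
  have hw0 : Lf φ w = Lf φ (ga δ t0) :=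
    le_antisymm (KK_le φ _ ht0 w hw.1) (hcl _ (KK_sub t0))
  rw [face h φ t0 ht0 w hw.1 hw0]
  exact mem_range_self t0

/-- The convex hull is strictly convex. -/
lemma KK_strict (h : Small δ δ1 δ2) : StrictConvex ℝ (KK δ) := by
  intro x hx y hy hxy a b ha hb hab
  by_contra hn
  have hn' : a • x + b • y ∉ interior (KK δ) := hn
  obtain ⟨φ, hcl⟩ := exists_support h _ hn'
  obtain ⟨t0, ht0⟩ := exists_max h φ
  have hw : a • x + b • y ∈ KK δ := KK_convex hx hy ha.le hb.le hab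
  have hw0 : Lf φ (a • x + b • y) = Lf φ (ga δ t0) :=
    le_antisymm (KK_le φ _ ht0 _ hw) (hcl _ (KK_sub t0))
  have hx1 := KK_le φ _ ht0 x hx
  have hy1 := KK_le φ _ ht0 y hy
  rw [Lf_add, Lf_smul, Lf_smul] at hw0
  set M := Lf φ (ga δ t0)
  have hx2 : Lf φ x = M := by
    by_contra hne
    have hlt := lt_of_le_of_ne hx1 hne
    have h1 : a * Lf φ x < a * M := mul_lt_mul_of_pos_left hlt ha
    have h2 : b * Lf φ y ≤ b * M := mul_le_mul_of_nonneg_left hy1 hb.le
    have h3 : a * M + b * M = M := by rw [← add_mul, hab, one_mul]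
    linarith
  have hy2 : Lf φ y = M := by
    by_contra hne
    have hlt := lt_of_le_of_ne hy1 hne
    have h1 : b * Lf φ y < b * M := mul_lt_mul_of_pos_left hlt hb
    have h2 : a * Lf φ x ≤ a * M := mul_le_mul_of_nonneg_left hx1 ha.le
    have h3 : a * M + b * M = M := by rw [← add_mul, hab, one_mul]
    linarith
  exact hxy ((face h φ t0 ht0 x hx hx2).trans (face h φ t0 ht0 y hy hy2).symm)

/-- **A curve that is `C²`-close to the unit circle is the boundary of a strictly convex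
domain.** -/
theorem near_circle (h : Small δ δ1 δ2) :
    ∃ D : Set ℂ, IsOpen D ∧ Convex ℝ D ∧ Bornology.IsBounded D ∧ D.Nonempty ∧
      frontier D = range (ga δ) ∧ StrictConvex ℝ (closure D) := by
  have h1 : closure (interior (KK δ)) = closure (KK δ) :=
    KK_convex.closure_interior_eq_closure_of_nonempty_interior (interior_nonempty' h)
  refine ⟨interior (KK δ), isOpen_interior, KK_convex.interior,
    (KK_bdd h).subset interior_subset, interior_nonempty' h, ?_, ?_⟩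
  · have h2 : frontier (interior (KK δ)) = frontier (KK δ) := by
      rw [frontier, frontier, interior_interior, h1]
    rw [h2]
    exact Subset.antisymm (frontier_sub_range h) (range_sub_frontier h)
  · rw [h1, KK_closed.closure_eq]
    exact KK_strict h

end

end Pool.Agent.Lib.MP_479d4c_gt.H95
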